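import Pool.Agent.W622.ETG.Lin

set_option autoImplicit false

namespace Pool.Agent.W793.ELG

open Pool.Agent.W622.ETG Module

theorem locBlock_of_CB {V : Type} [AddCommGroup V] [Module (ZMod 2) V] {e : V} {A : Fam V}
    (h : CB e A) {X : DSub V} (hX : Block e A X) : LocBlock e A X := by
  rcases hX with h1 | h1
  · exact absurd h1.1 (h.nc X)
  · exact h1

theorem finrank_span_one {V : Type} [AddCommGroup V] [Module (ZMod 2) V] {s : Dl V} (hs : s ≠ 0) :
    finrank (ZMod 2) (Submodule.span (ZMod 2) {s} : DSub V) = 1 :=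
  finrank_span_singleton hs

theorem val_e {V : Type} [AddCommGroup V] [Module (ZMod 2) V] [Finite V] {e : V} {A : Fam V}
    (hOM : S_OM) (h : CB e A) {s : Dl V} (hs : s ≠ 0)
    (hg : Submodule.span (ZMod 2) {s} ∈ GB e A) : s e = 1 := by
  have h1 := hOM V e A _ h.mc.ef (locBlock_of_CB h hg.1)
  obtain ⟨-, t, ht, hst, -⟩ := h1.2.2.2.2.2 (finrank_span_one hs)
  have h2 : s ∈ (Submodule.span (ZMod 2) {t} : DSub V) := by
    rw [← hst]; exact Submodule.mem_span_singleton_self s
  rcases span_one_mem.mp h2 with h3 | h3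
  · exact absurd h3 hs
  · rw [h3]; exact ht

/-- part B1P of project ELG -/
theorem t_B1P (hBDIS : S_BDIS) (hOM : S_OM) (hB1H : S_B1H) : S_B1P := by
  classical
  intro V _ _ _ e A F s₁ s₂ hCB hF hdim hs1 hs2 hne hg1 hg2
  set S₁ : DSub V := Submodule.span (ZMod 2) {s₁} with hS1
  set S₂ : DSub V := Submodule.span (ZMod 2) {s₂} with hS2
  have hm1 : s₁ ∈ S₁ := Submodule.mem_span_singleton_self s₁
  have hm2 : s₂ ∈ S₂ := Submodule.mem_span_singleton_self s₂
  have hS12 : S₁ ≠ S₂ := by
    intro h
    rw [h] at hm1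
    rcases span_one_mem.mp hm1 with h3 | h3
    · exact hs1 h3
    · exact hne h3
  have hF1 : F ≠ S₁ := fun h => hF.2 (h ▸ hg1.2)
  have hF2 : F ≠ S₂ := fun h => hF.2 (h ▸ hg2.2)
  have hd1 : Disjoint F S₁ := (hBDIS V e A S₁ F hCB.mc hg1 hF.1 hF1.symm).symm
  have hd2 : Disjoint F S₂ := (hBDIS V e A S₂ F hCB.mc hg2 hF.1 hF2.symm).symm
  have hd12 : Disjoint S₁ S₂ := hBDIS V e A S₁ S₂ hCB.mc hg1 hg2.1 hS12
  have hr1 : finrank (ZMod 2) S₁ = 1 := finrank_span_one hs1
  have hr2 : finrank (ZMod 2) S₂ = 1 := finrank_span_one hs2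
  have hset : insert F ((({S₁, S₂} : Finset (DSub V)) : Set (DSub V))) = {F, S₁, S₂} := by
    simp
  have hdep : ¬ sSupIndep (insert F ((({S₁, S₂} : Finset (DSub V)) : Set (DSub V)))) := by
    intro h
    have h1 : sSupIndep ((({F, S₁, S₂} : Finset (DSub V)) : Set (DSub V))) := by
      have : ((({F, S₁, S₂} : Finset (DSub V)) : Set (DSub V)))
        = insert F ((({S₁, S₂} : Finset (DSub V)) : Set (DSub V))) := by simp
      rw [this]; exact h
    have h2 := idim _ h1
    rw [Finset.sum_insert (by simp [hF1, hF2]), Finset.sum_insert (by simp [hS12]),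
      Finset.sum_singleton, hr1, hr2] at h2
    have h3 : finrank (ZMod 2) (sSup ((({F, S₁, S₂} : Finset (DSub V)) : Set (DSub V))) : DSub V)
        ≤ finrank (ZMod 2) (Dl V) := Submodule.finrank_le _
    rw [finrank_Dl] at h3
    omega
  have hmin : ∀ D' : Set (DSub V),
      D' ⊆ insert F ((({S₁, S₂} : Finset (DSub V)) : Set (DSub V))) →
      D' ≠ insert F ((({S₁, S₂} : Finset (DSub V)) : Set (DSub V))) → sSupIndep D' := by
    intro D' hD hD'
    rw [hset] at hD hD'
    have hp1 : sSupIndep ({F, S₁} : Set (DSub V)) := (sSupIndep_pair hF1).mpr hd1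
    have hp2 : sSupIndep ({F, S₂} : Set (DSub V)) := (sSupIndep_pair hF2).mpr hd2
    have hp3 : sSupIndep ({S₁, S₂} : Set (DSub V)) := (sSupIndep_pair hS12).mpr hd12
    by_cases c1 : F ∈ D'
    · by_cases c2 : S₁ ∈ D'
      · by_cases c3 : S₂ ∈ D'
        · exfalso
          apply hD'
          apply Set.Subset.antisymm hD
          intro X hX
          simp only [Set.mem_insert_iff, Set.mem_singleton_iff] at hX
          rcases hX with h | h | h
          · rw [h]; exact c1
          · rw [h]; exact c2
          · rw [h]; exact c3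
        · refine hp1.mono ?_
          intro X hX
          have h := hD hX
          simp only [Set.mem_insert_iff, Set.mem_singleton_iff] at h ⊢
          rcases h with h | h | h
          · exact Or.inl h
          · exact Or.inr h
          · exact absurd (h ▸ hX) c3
      · refine hp2.mono ?_
        intro X hX
        have h := hD hX
        simp only [Set.mem_insert_iff, Set.mem_singleton_iff] at h ⊢
        rcases h with h | h | h
        · exact Or.inl h
        · exact absurd (h ▸ hX) c2
        · exact Or.inr h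
    · refine hp3.mono ?_
      intro X hX
      have h := hD hX
      simp only [Set.mem_insert_iff, Set.mem_singleton_iff] at h ⊢
      rcases h with h | h | h
      · exact absurd (h ▸ hX) c1
      · exact Or.inl h
      · exact Or.inr h
  obtain ⟨a, ha0, ha1, hcard, hall, hval⟩ := hB1H V e A F {S₁, S₂} s₁ s₂ hCB hF
    (by
      intro X hX
      simp only [Finset.coe_insert, Finset.coe_singleton, Set.mem_insert_iff,
        Set.mem_singleton_iff] at hX
      rcases hX with h | h
      · rw [h]; exact hg1
      · rw [h]; exact hg2)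
    hdep hmin
    (by
      intro X hX
      simp only [Finset.mem_insert, Finset.mem_singleton] at hX
      rcases hX with h | h
      · rw [h]; exact hr1
      · rw [h]; exact hr2)
    (by simp [hS1]) (by simp [hS2]) hs1 hs2 hne
  have hv : s₁ + s₂ = om e A F a := by
    apply hval
    intro X hX hX2
    simp only [Finset.mem_insert, Finset.mem_singleton] at hX
    rcases hX with h | h
    · rw [h, hS1, Submodule.span_singleton_le_iff_mem]
      exact ha1
    · exact absurd h hX2
  have hF' := hOM V e A F hCB.mc.ef (locBlock_of_CB hCB hF.1)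
  have hef : EF e (om e A F) := hCB.mc.ef _ hF'.1
  have he1 : s₁ e = 1 := val_e hOM hCB hs1 hg1
  have he2 : s₂ e = 1 := val_e hOM hCB hs2 hg2
  have ha2 : s₂ a = 0 := by
    have h1 := hef.sq a
    rw [← hv, LinearMap.add_apply, LinearMap.add_apply, ha1, he1, he2, zero_add] at h1
    rw [h1]; decide
  exact ⟨a, ha0, ha1, ha2, hv.symm, hcard, hall⟩

end Pool.Agent.W793.ELG
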